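import Pool.Agent.Helper15.T4.Stmts

set_option autoImplicit false

/-!
MP_e0a484_co, module POSG: a positive proportion of the pairings has no short cycle.
-/

open Finset MeasureTheory Filter Topology

namespace Pool.Agent.Helper68.T4

open Pool.Agent.Helper15.T4

private theorem posg_cov {H : Type} [Fintype H] (F : Finset (Sym2 H)) (h : H) :
    h ∈ cov F ↔ ∃ e ∈ F, h ∈ e := by
  unfold cov
  simp

private theorem posg_tv {n k : ℕ} (c : CycD n k) (v : Fin n) (h : v ∈ tv (E c)) : v ∈ vs c := by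
  unfold tv at h
  rw [Finset.mem_image] at h
  obtain ⟨a, ha, hav⟩ := h
  rw [posg_cov] at ha
  obtain ⟨e, he, hae⟩ := ha
  unfold E at he
  unfold vs
  rw [Finset.mem_image] at he
  obtain ⟨i, -, hi⟩ := he
  rw [← hi, Sym2.mem_iff] at hae
  rw [Finset.mem_image]
  rcases hae with h1 | h1
  · exact ⟨i, Finset.mem_univ _, by rw [← hav, h1]⟩
  · exact ⟨i + 1, Finset.mem_univ _, by rw [← hav, h1]⟩

/-- the set of pairs of intersecting cycles -/
private noncomputable def PS {n : ℕ} (k k' : ℕ) (M : Finset (Sym2 (HE n))) : ℕ :=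
  {p : ((i : Unit) → CycD n ((fun _ : Unit => k) i)) × CycD n k' | DisjFam p.1 ∧ Valid p.2 ∧
    (∀ i, E p.2 ≠ E (p.1 i)) ∧ ¬ Disjoint (vs p.2) (tv (EU p.1)) ∧ EU p.1 ⊆ M ∧
    E p.2 ⊆ M}.ncard

/-- if `M` has a short cycle, but no isolated short cycle, then two short cycles meet -/
private theorem posg_bad {n : ℕ} (m g : ℕ) (hg : ∀ k, k + 1 < g → k < m)
    (M : Finset (Sym2 (HE n))) (hZ : ∀ k : Fin m, Zs m k M = 0) (hN : ¬ NoShort g M) :
    (1 : ℝ) ≤ ∑ k ∈ range m, ∑ k' ∈ range m, (PS k k' M : ℝ) := by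
  classical
  unfold NoShort at hN
  push Not at hN
  obtain ⟨k, hk, c, hc, hcM⟩ := hN
  have hkm : k < m := hg k hk
  have h0 := hZ ⟨k, hkm⟩
  unfold Zs at h0
  rw [Finset.card_eq_zero] at h0
  have hC : E c ∈ Cyc n k := by
    unfold Cyc
    rw [Finset.mem_image]
    exact ⟨c, by rw [Finset.mem_filter]; exact ⟨Finset.mem_univ _, hc⟩, rfl⟩
  have h1 : ¬ (∀ k' < m, ∀ C' ∈ Cyc n k', C' ⊆ M → C' ≠ E c → Disjoint (tv (E c)) (tv C')) := by
    intro hcon
    have : E c ∈ (∅ : Finset (Finset (Sym2 (HE n)))) := by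
      rw [← h0, Finset.mem_filter]
      exact ⟨hC, hcM, hcon⟩
    exact absurd this (Finset.notMem_empty _)
  push Not at h1
  obtain ⟨k', hk', C', hC', hC'M, hne, hdis⟩ := h1
  unfold Cyc at hC'
  rw [Finset.mem_image] at hC'
  obtain ⟨c', hc', rfl⟩ := hC'
  rw [Finset.mem_filter] at hc'
  have hEU : EU (I := Unit) (κ := fun _ => k) (fun _ => c) = E c := by
    unfold EU
    ext e
    simp
  have h2 : 1 ≤ PS k k' M := by
    unfold PS
    rw [Nat.one_le_iff_ne_zero, Ne, Set.ncard_eq_zero (Set.toFinite _)]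
    intro hcon
    have : ((fun _ : Unit => c), c') ∈ (∅ : Set (((i : Unit) → CycD n ((fun _ : Unit => k) i)) ×
        CycD n k')) := by
      rw [← hcon]
      refine ⟨⟨fun _ => hc, fun i j hij => absurd (Subsingleton.elim i j) hij⟩, hc'.2,
        fun _ => hne, ?_, ?_, hC'M⟩
      · rw [hEU]
        rw [Finset.not_disjoint_iff] at hdis ⊢
        obtain ⟨v, hv1, hv2⟩ := hdis
        exact ⟨v, posg_tv c' v hv2, hv1⟩
      · rw [hEU]
        exact hcM
    exact this
  have h3 : (1 : ℝ) ≤ (PS k k' M : ℝ) := by exact_mod_cast h2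
  refine h3.trans ?_
  refine le_trans ?_ (Finset.single_le_sum (f := fun k => ∑ k' ∈ range m, (PS k k' M : ℝ))
    (fun i _ => Finset.sum_nonneg fun _ _ => Nat.cast_nonneg _) (Finset.mem_range.mpr hkm))
  exact Finset.single_le_sum (f := fun k' => (PS k k' M : ℝ)) (fun i _ => Nat.cast_nonneg _)
    (Finset.mem_range.mpr hk')

open Classical in
theorem POSG (h1 : ST_UNI) (h2 : ST_POI) (h3 : ST_ERR) : ST_POSG := by
  intro g
  set m := g - 1 with hm
  have hg : ∀ k, k + 1 < g → k < m := fun k hk => by omega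
  set W : (N : ℕ) → Finset (Sym2 (HE (2 * N))) → ℝ :=
    fun N _ => 1 / ((PM (univ : Finset (HE (2 * N)))).card : ℝ) with hW
  have hGood : Good W (fun _ => 1) := h1
  have hP := h2 W (fun _ => 1) hGood (fun _ => zero_le_one) m (fun _ => 0)
  set p : ℝ := ∏ k : Fin m, po (lam k * 1) 0 with hp
  have hp0 : 0 < p := by
    rw [hp]
    refine Finset.prod_pos fun k _ => ?_
    unfold po
    simp only [pow_zero, mul_one, Nat.factorial_zero, Nat.cast_one, div_one]
    exact Real.exp_pos _
  have hE : ∀ k k' : ℕ, ∃ C : ℝ, ∀ᶠ N : ℕ in atTop,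
      ∑ M ∈ PM (univ : Finset (HE (2 * N))), W N M * (PS k k' M : ℝ) ≤ C / (N : ℝ) :=
    fun k k' => h3 W hGood.nonneg hGood.bd Unit (fun _ => k) k'
  choose C hC using hE
  -- the sum of the error terms
  have hC2 : ∀ᶠ N : ℕ in atTop, ∀ k ∈ range m, ∀ k' ∈ range m,
      ∑ M ∈ PM (univ : Finset (HE (2 * N))), W N M * (PS k k' M : ℝ) ≤ C k k' / (N : ℝ) := by
    rw [Filter.eventually_all_finset]
    intro k _
    rw [Filter.eventually_all_finset]
    intro k' _
    exact hC k k'
  have hT : Tendsto (fun N : ℕ => (∑ k ∈ range m, ∑ k' ∈ range m, C k k') / (N : ℝ)) atTop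
      (𝓝 0) := tendsto_const_div_atTop_nhds_zero_nat _
  have hT2 : ∀ᶠ N : ℕ in atTop, (∑ k ∈ range m, ∑ k' ∈ range m, C k k') / (N : ℝ) < p / 4 :=
    hT.eventually_lt_const (by positivity)
  have hP2 : ∀ᶠ N : ℕ in atTop, p / 2 < ∑ M ∈ (PM (univ : Finset (HE (2 * N)))).filter
      (fun M => (fun k : Fin m => Zs m k M) = fun _ => 0), W N M :=
    hP.eventually_const_lt (by linarith)
  refine ⟨p / 4, by positivity, ?_⟩
  filter_upwards [hC2, hT2, hP2] with N hN1 hN2 hN3
  have hkey : p / 4 ≤ ∑ M ∈ (PM (univ : Finset (HE (2 * N)))).filter (fun M => NoShort g M),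
      W N M := by
    have hbad : ∑ M ∈ (PM (univ : Finset (HE (2 * N)))).filter
        (fun M => (fun k : Fin m => Zs m k M) = fun _ => 0), W N M ≤
        ∑ M ∈ (PM (univ : Finset (HE (2 * N)))).filter (fun M => NoShort g M), W N M +
        ∑ M ∈ PM (univ : Finset (HE (2 * N))),
          W N M * ∑ k ∈ range m, ∑ k' ∈ range m, (PS k k' M : ℝ) := by
      rw [Finset.sum_filter, Finset.sum_filter, ← Finset.sum_add_distrib]
      refine Finset.sum_le_sum fun M _ => ?_
      have hw : 0 ≤ W N M := hGood.nonneg N M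
      have hs : 0 ≤ ∑ k ∈ range m, ∑ k' ∈ range m, (PS k k' M : ℝ) :=
        Finset.sum_nonneg fun _ _ => Finset.sum_nonneg fun _ _ => Nat.cast_nonneg _
      by_cases hz : (fun k : Fin m => Zs m k M) = fun _ => 0
      · rw [if_pos hz]
        by_cases hns : NoShort g M
        · rw [if_pos hns]
          have := mul_nonneg hw hs
          linarith
        · rw [if_neg hns, zero_add]
          have hb := posg_bad m g hg M (fun k => congrFun hz k) hns
          calc W N M = W N M * 1 := (mul_one _).symm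
            _ ≤ _ := mul_le_mul_of_nonneg_left hb hw
      · rw [if_neg hz]
        have := mul_nonneg hw hs
        by_cases hns : NoShort g M
        · rw [if_pos hns]
          linarith
        · rw [if_neg hns]
          linarith
    have herr : ∑ M ∈ PM (univ : Finset (HE (2 * N))),
        W N M * ∑ k ∈ range m, ∑ k' ∈ range m, (PS k k' M : ℝ) ≤
        (∑ k ∈ range m, ∑ k' ∈ range m, C k k') / (N : ℝ) := by
      have : ∑ M ∈ PM (univ : Finset (HE (2 * N))),
          W N M * ∑ k ∈ range m, ∑ k' ∈ range m, (PS k k' M : ℝ) =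
          ∑ k ∈ range m, ∑ k' ∈ range m, ∑ M ∈ PM (univ : Finset (HE (2 * N))),
            W N M * (PS k k' M : ℝ) := by
        simp only [Finset.mul_sum]
        rw [Finset.sum_comm]
        refine Finset.sum_congr rfl fun k _ => ?_
        rw [Finset.sum_comm]
      rw [this, Finset.sum_div]
      refine Finset.sum_le_sum fun k hk => ?_
      rw [Finset.sum_div]
      exact Finset.sum_le_sum fun k' hk' => hN1 k hk k' hk'
    linarith
  rcases Nat.eq_zero_or_pos (PM (univ : Finset (HE (2 * N)))).card with h0 | h0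
  · rw [h0]
    simp
  · have h0' : (0 : ℝ) < ((PM (univ : Finset (HE (2 * N)))).card : ℝ) := by exact_mod_cast h0
    have : ∑ M ∈ (PM (univ : Finset (HE (2 * N)))).filter (fun M => NoShort g M), W N M =
        (((PM (univ : Finset (HE (2 * N)))).filter (fun M => NoShort g M)).card : ℝ) /
          ((PM (univ : Finset (HE (2 * N)))).card : ℝ) := by
      rw [hW]
      simp only [Finset.sum_const, nsmul_eq_mul]
      ring
    rw [this, le_div_iff₀ h0'] at hkey
    exact hkey

end Pool.Agent.Helper68.T4
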